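import Mathlib

set_option autoImplicit false
open Set Function MeasureTheory

namespace Pool.Agent.H.MP_5eb27c_an

variable (Γ : Type*) {X : Type*} [Group Γ] [Countable Γ] [MeasurableSpace Γ]
  [DiscreteMeasurableSpace Γ] [MeasurableSpace X] [MulAction Γ X] [MeasurableConstSMul Γ X]

def PW (φ : X → X) : Prop := ∃ f : X → Γ, Measurable f ∧ ∀ x, φ x = f x • x

def Le (A B : Set X) : Prop := ∃ φ : X → X, PW Γ φ ∧ InjOn φ A ∧ MapsTo φ A B

def Sw (A B : Set X) : Prop := ∃ α β : X → X, PW Γ α ∧ PW Γ β ∧ InjOn α A ∧ InjOn β B ∧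
  MapsTo α A B ∧ MapsTo β B B ∧ ∀ x ∈ A, ∀ y ∈ B, α x ≠ β y

variable {Γ}

lemma meas_sel {Y ι : Type*} [MeasurableSpace Y] [Countable ι] [MeasurableSpace ι]
    [DiscreteMeasurableSpace ι] {F : ι → X → Y} (hF : ∀ i, Measurable (F i)) {n : X → ι}
    (hn : Measurable n) : Measurable fun x => F (n x) x := by
  have : Measurable fun p : X × ι => F p.2 p.1 := measurable_from_prod_countable_left fun i => hF i
  exact this.comp (measurable_id.prodMk hn)

lemma PW.meas {φ : X → X} (h : PW Γ φ) : Measurable φ := by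
  obtain ⟨f, hf, e⟩ := h
  have : φ = fun x => (fun (g : Γ) (x : X) => g • x) (f x) x := funext e
  rw [this]
  exact meas_sel (fun g => measurable_const_smul g) hf

omit [Countable Γ] [DiscreteMeasurableSpace Γ] [MeasurableConstSMul Γ X] in
lemma pw_const (g : Γ) : PW Γ (fun x : X => g • x) := ⟨fun _ => g, measurable_const, fun _ => rfl⟩

omit [Countable Γ] [DiscreteMeasurableSpace Γ] [MeasurableConstSMul Γ X] in
lemma pw_id : PW Γ (fun x : X => x) := ⟨fun _ => 1, measurable_const, fun _ => by simp⟩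

lemma PW.comp {φ ψ : X → X} (hψ : PW Γ ψ) (hφ : PW Γ φ) : PW Γ (fun x => ψ (φ x)) := by
  have hm := hφ.meas
  obtain ⟨f, hf, e⟩ := hφ
  obtain ⟨g, hg, e'⟩ := hψ
  refine ⟨fun x => g (φ x) * f x, ?_, fun x => by beta_reduce; rw [e', mul_smul, ← e]⟩
  exact meas_sel (F := fun (a : Γ) x => g (φ x) * a)
    (fun a => (Measurable.of_discrete (f := fun b : Γ => b * a)).comp (hg.comp hm)) hf

omit [Countable Γ] [DiscreteMeasurableSpace Γ] [MeasurableConstSMul Γ X] in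
lemma pw_sel {ι : Type*} [Countable ι] [MeasurableSpace ι] [DiscreteMeasurableSpace ι]
    {φ : ι → X → X} (h : ∀ i, PW Γ (φ i)) {n : X → ι} (hn : Measurable n) :
    PW Γ (fun x => φ (n x) x) := by
  choose f hf e using h
  exact ⟨fun x => f (n x) x, meas_sel hf hn, fun x => e _ _⟩

omit [Countable Γ] [DiscreteMeasurableSpace Γ] [MeasurableConstSMul Γ X] in
open Classical in
lemma pw_ite {φ ψ : X → X} (hφ : PW Γ φ) (hψ : PW Γ ψ) {S : Set X} (hS : MeasurableSet S) :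
    PW Γ (fun x => if x ∈ S then φ x else ψ x) := by
  obtain ⟨f, hf, e⟩ := hφ
  obtain ⟨g, hg, e'⟩ := hψ
  refine ⟨fun x => if x ∈ S then f x else g x, Measurable.ite hS hf hg, fun x => ?_⟩
  beta_reduce
  split_ifs <;> simp [e, e']

lemma PW.image {φ : X → X} (h : PW Γ φ) {A : Set X} (hA : MeasurableSet A) :
    MeasurableSet (φ '' A) := by
  obtain ⟨f, hf, e⟩ := h
  have : φ '' A = ⋃ g : Γ, (fun y => g⁻¹ • y) ⁻¹' (A ∩ f ⁻¹' {g}) := by
    ext y
    simp only [mem_image, mem_iUnion, mem_preimage, mem_inter_iff, mem_singleton_iff]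
    constructor
    · rintro ⟨x, hx, rfl⟩
      exact ⟨f x, by simpa [e] using hx, by simp [e]⟩
    · rintro ⟨g, h1, h2⟩
      exact ⟨_, h1, by rw [e, h2]; simp⟩
  rw [this]
  exact MeasurableSet.iUnion fun g =>
    measurable_const_smul _ (hA.inter (hf (MeasurableSet.of_discrete)))

lemma PW.inv {φ : X → X} (h : PW Γ φ) {A : Set X} (hA : MeasurableSet A) (hi : InjOn φ A) :
    ∃ ψ : X → X, PW Γ ψ ∧ ∀ x ∈ A, ψ (φ x) = x := by
  classical
  obtain ⟨f, hf, e⟩ := h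
  obtain ⟨γ, hγ⟩ := exists_surjective_nat Γ
  let p : X → ℕ → Prop := fun y k => ((γ k)⁻¹ • y ∈ A ∧ f ((γ k)⁻¹ • y) = γ k) ∨ y ∉ φ '' A
  have hp : ∀ y, ∃ k, p y k := by
    intro y
    by_cases hy : y ∈ φ '' A
    · obtain ⟨x, hx, rfl⟩ := hy
      obtain ⟨k, hk⟩ := hγ (f x)
      exact ⟨k, Or.inl (by rw [hk, e]; simpa using hx)⟩
    · exact ⟨0, Or.inr hy⟩
  have hm : Measurable fun y => Nat.find (hp y) := by
    refine measurable_find hp fun k => ?_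
    have h1 : MeasurableSet ((fun y : X => (γ k)⁻¹ • y) ⁻¹' (A ∩ f ⁻¹' {γ k})) :=
      measurable_const_smul _ (hA.inter (hf (MeasurableSet.of_discrete)))
    exact h1.union (PW.image ⟨f, hf, e⟩ hA).compl
  refine ⟨fun y => (γ (Nat.find (hp y)))⁻¹ • y,
    pw_sel (φ := fun k y => (γ k)⁻¹ • y) (fun k => pw_const _) hm, fun x hx => ?_⟩
  rcases Nat.find_spec (hp (φ x)) with ⟨h1, h2⟩ | h1
  · apply hi h1 hx
    rw [e ((γ _)⁻¹ • φ x), h2]; simp
  · exact absurd (mem_image_of_mem _ hx) h1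

lemma hotel {A B : Set X} (hA : MeasurableSet A) {θ : ℕ → X → X} (hθ : ∀ k, PW Γ (θ k))
    (hm : ∀ k, MapsTo (θ k) A B)
    (hi : ∀ k l, ∀ x ∈ A, ∀ y ∈ A, θ k x = θ l y → k = l ∧ x = y) : Sw Γ A B := by
  classical
  choose ψ hψ eψ using fun k => (hθ k).inv hA (fun x hx y hy h => (hi k k x hx y hy h).2)
  let p : X → ℕ → Prop := fun y k => y ∈ θ k '' A ∨ y ∉ ⋃ k, θ k '' A
  have hp : ∀ y, ∃ k, p y k := by
    intro y
    by_cases hy : y ∈ ⋃ k, θ k '' A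
    · obtain ⟨k, hk⟩ := mem_iUnion.1 hy
      exact ⟨k, Or.inl hk⟩
    · exact ⟨0, Or.inr hy⟩
  have hU : MeasurableSet (⋃ k, θ k '' A) := MeasurableSet.iUnion fun k => (hθ k).image hA
  have hn : Measurable fun y => Nat.find (hp y) :=
    measurable_find hp fun k => ((hθ k).image hA).union hU.compl
  obtain ⟨β, hβ⟩ : ∃ β : X → X, β = fun y => if y ∈ ⋃ k, θ k '' A then
      θ (Nat.find (hp y) + 1) (ψ (Nat.find (hp y)) y) else y := ⟨_, rfl⟩
  have b1 : ∀ k, ∀ x ∈ A, β (θ k x) = θ (k + 1) x := by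
    intro k x hx
    have hy : θ k x ∈ ⋃ k, θ k '' A := mem_iUnion.2 ⟨k, mem_image_of_mem _ hx⟩
    rcases Nat.find_spec (hp (θ k x)) with ⟨x', hx', h⟩ | h
    · obtain ⟨h1, -⟩ := hi _ _ _ hx' _ hx h
      simp only [hβ, if_pos hy, h1, eψ k x hx]
    · exact absurd hy h
  have b2 : ∀ y, y ∉ (⋃ k, θ k '' A) → β y = y := fun y hy => by simp only [hβ, if_neg hy]
  have cs : ∀ y, (∃ k, ∃ x ∈ A, y = θ k x) ∨ y ∉ (⋃ k, θ k '' A) := by
    intro y
    by_cases hy : y ∈ ⋃ k, θ k '' A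
    · obtain ⟨k, x, hx, rfl⟩ := mem_iUnion.1 hy
      exact Or.inl ⟨k, x, hx, rfl⟩
    · exact Or.inr hy
  have mem : ∀ k, ∀ x ∈ A, θ k x ∈ ⋃ k, θ k '' A :=
    fun k x hx => mem_iUnion.2 ⟨k, mem_image_of_mem _ hx⟩
  refine ⟨θ 0, β, hθ 0, ?_, fun x hx y hy h => (hi 0 0 x hx y hy h).2, ?_, hm 0, ?_, ?_⟩
  · rw [hβ]
    exact pw_ite (pw_sel (φ := fun k y => θ (k + 1) (ψ k y))
      (fun k => (hθ (k + 1)).comp (hψ k)) hn) pw_id hU
  · intro y _ z _ h
    rcases cs y with ⟨k, x, hx, rfl⟩ | hy <;> rcases cs z with ⟨l, x', hx', rfl⟩ | hz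
    · rw [b1 k x hx, b1 l x' hx'] at h
      obtain ⟨h1, h2⟩ := hi _ _ _ hx _ hx' h
      rw [h2, Nat.succ_injective h1]
    · rw [b1 k x hx, b2 z hz] at h
      exact absurd (h ▸ mem _ x hx) hz
    · rw [b1 l x' hx', b2 y hy] at h
      exact absurd (h ▸ mem _ x' hx') hy
    · rwa [b2 y hy, b2 z hz] at h
  · intro y hy
    rcases cs y with ⟨k, x, hx, rfl⟩ | hy'
    · rw [b1 k x hx]; exact hm _ hx
    · rwa [b2 y hy']
  · intro x hx y _ h
    rcases cs y with ⟨k, x', hx', rfl⟩ | hy'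
    · rw [b1 k x' hx'] at h
      exact absurd (hi _ _ _ hx _ hx' h).1 (by omega)
    · rw [b2 y hy'] at h
      exact hy' (h ▸ mem 0 x hx)

lemma Sw.union {A A' B : Set X} (hA : MeasurableSet A) (h : Sw Γ A B) (h' : Sw Γ A' B) :
    Sw Γ (A ∪ A') B := by
  classical
  obtain ⟨α, β, pα, pβ, iα, iβ, mα, mβ, d⟩ := h
  obtain ⟨α', β', pα', pβ', iα', iβ', mα', mβ', d'⟩ := h'
  refine ⟨fun x => if x ∈ A then α x else β (α' x), fun y => β (β' y),
    pw_ite pα (pβ.comp pα') hA, pβ.comp pβ', ?_, ?_, ?_, fun y hy => mβ (mβ' hy), ?_⟩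
  · intro x hx y hy h
    by_cases h1 : x ∈ A <;> by_cases h2 : y ∈ A <;> simp only [h1, h2, if_true, if_false] at h
    · exact iα h1 h2 h
    · exact absurd h (d x h1 _ (mα' (hy.resolve_left h2)))
    · exact absurd h.symm (d y h2 _ (mα' (hx.resolve_left h1)))
    · exact iα' (hx.resolve_left h1) (hy.resolve_left h2)
        (iβ (mα' (hx.resolve_left h1)) (mα' (hy.resolve_left h2)) h)
  · intro x hx y hy h
    exact iβ' hx hy (iβ (mβ' hx) (mβ' hy) h)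
  · intro x hx
    by_cases h1 : x ∈ A <;> simp only [h1, if_true, if_false]
    · exact mα h1
    · exact mβ (mα' (hx.resolve_left h1))
  · intro x hx y hy h
    by_cases h1 : x ∈ A <;> simp only [h1, if_true, if_false] at h
    · exact d x h1 _ (mβ' hy) h
    · exact d' x (hx.resolve_left h1) y hy (iβ (mα' (hx.resolve_left h1)) (mβ' hy) h)

lemma sw_biUnion {B : Set X} {A : ℕ → Set X} (hA : ∀ i, MeasurableSet (A i))
    (h : ∀ i, Sw Γ (A i) B) (m : ℕ) : Sw Γ (⋃ i ∈ Finset.range m, A i) B := by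
  induction m with
  | zero =>
    exact ⟨fun x => x, fun x => x, pw_id, pw_id, by simp, injOn_id _, fun x hx => by simp at hx,
      mapsTo_id _, by simp⟩
  | succ m ih =>
    rw [Finset.range_add_one, Finset.set_biUnion_insert]
    exact Sw.union (hA m) (h m) ih

/-- comparability -/
lemma compare {A B : Set X} (hA : MeasurableSet A) (hB : MeasurableSet B) :
    ∃ Q : Set X, MeasurableSet Q ∧ (∀ (g : Γ) x, x ∈ Q → g • x ∈ Q) ∧
      Le Γ (A \ Q) (B \ Q) ∧ Le Γ (B ∩ Q) (A ∩ Q) := by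
  classical
  obtain ⟨γ, hγ⟩ := exists_surjective_nat Γ
  let st : ℕ → Set X × Set X := fun k => Nat.rec (A, B)
    (fun k s => (s.1 \ (fun x => γ k • x) ⁻¹' s.2, s.2 \ (fun x => (γ k)⁻¹ • x) ⁻¹' s.1)) k
  have s0 : st 0 = (A, B) := rfl
  have s1 : ∀ k x, x ∈ (st (k + 1)).1 ↔ x ∈ (st k).1 ∧ γ k • x ∉ (st k).2 := fun _ _ => Iff.rfl
  have s2 : ∀ k x, x ∈ (st (k + 1)).2 ↔ x ∈ (st k).2 ∧ (γ k)⁻¹ • x ∉ (st k).1 :=
    fun _ _ => Iff.rfl
  have hm : ∀ k, MeasurableSet (st k).1 ∧ MeasurableSet (st k).2 := by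
    intro k
    induction k with
    | zero => exact ⟨hA, hB⟩
    | succ k ih =>
      exact ⟨ih.1.diff (measurable_const_smul _ ih.2), ih.2.diff (measurable_const_smul _ ih.1)⟩
  have a1 : Antitone fun k => (st k).1 := antitone_nat_of_succ_le fun k x hx => ((s1 k x).1 hx).1
  have a2 : Antitone fun k => (st k).2 := antitone_nat_of_succ_le fun k x hx => ((s2 k x).1 hx).1
  let M : ℕ → Set X := fun k => (st k).1 ∩ (fun x => γ k • x) ⁻¹' (st k).2
  have hM : ∀ k, MeasurableSet (M k) := fun k => (hm k).1.inter (measurable_const_smul _ (hm k).2)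
  have u1 : ∀ k l, ∀ x ∈ M k, ∀ y ∈ M l, γ k • x = γ l • y → x = y := by
    have : ∀ k l, k < l → ∀ x ∈ M k, ∀ y ∈ M l, γ k • x ≠ γ l • y := by
      intro k l hkl x hx y hy h
      have h1 : γ l • y ∈ (st (k + 1)).2 := a2 hkl hy.2
      rw [← h] at h1
      exact ((s2 k _).1 h1).2 (by simpa using hx.1)
    intro k l x hx y hy h
    rcases lt_trichotomy k l with h1 | rfl | h1
    · exact absurd h (this k l h1 x hx y hy)
    · exact smul_left_cancel _ h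
    · exact absurd h.symm (this l k h1 y hy x hx)
  let p : X → ℕ → Prop := fun x k => x ∈ M k ∨ x ∉ ⋃ k, M k
  have hp : ∀ y, ∃ k, p y k := by
    intro y
    by_cases hy : y ∈ ⋃ k, M k
    · obtain ⟨k, hk⟩ := mem_iUnion.1 hy
      exact ⟨k, Or.inl hk⟩
    · exact ⟨0, Or.inr hy⟩
  have hU : MeasurableSet (⋃ k, M k) := MeasurableSet.iUnion hM
  have hn : Measurable fun y => Nat.find (hp y) := measurable_find hp fun k => (hM k).union hU.compl
  obtain ⟨φ, hφ⟩ : ∃ φ : X → X, φ = fun x => γ (Nat.find (hp x)) • x := ⟨_, rfl⟩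
  have pφ : PW Γ φ := by
    rw [hφ]; exact pw_sel (φ := fun k x => γ k • x) (fun k => pw_const _) hn
  have f1 : ∀ x ∈ ⋃ k, M k, ∃ k, x ∈ M k ∧ φ x = γ k • x := by
    intro x hx
    exact ⟨_, (Nat.find_spec (hp x)).resolve_right (not_not.2 hx), by rw [hφ]⟩
  have iφ : InjOn φ (⋃ k, M k) := by
    intro x hx y hy h
    obtain ⟨k, hk, e⟩ := f1 x hx
    obtain ⟨l, hl, e'⟩ := f1 y hy
    exact u1 k l x hk y hl (by rw [← e, ← e', h])
  have c1 : ∀ x ∈ A, x ∉ (⋃ k, M k) → ∀ k, x ∈ (st k).1 := by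
    intro x hx h k
    induction k with
    | zero => exact hx
    | succ k ih => exact (s1 k x).2 ⟨ih, fun h' => h (mem_iUnion.2 ⟨k, ih, h'⟩)⟩
  have c2 : ∀ y ∈ B, y ∉ φ '' (⋃ k, M k) → ∀ k, y ∈ (st k).2 := by
    intro y hy h k
    induction k with
    | zero => exact hy
    | succ k ih =>
      refine (s2 k y).2 ⟨ih, fun h' => h ?_⟩
      have hx : (γ k)⁻¹ • y ∈ M k := ⟨h', by simpa using ih⟩
      refine ⟨_, mem_iUnion.2 ⟨k, hx⟩, ?_⟩
      obtain ⟨l, hl, e⟩ := f1 _ (mem_iUnion.2 ⟨k, hx⟩)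
      rcases lt_trichotomy k l with h1 | rfl | h1
      · exact absurd hx.2 ((s1 k _).1 (a1 h1 hl.1)).2
      · rw [e]; simp
      · exact absurd hl.2 ((s1 l _).1 (a1 h1 hx.1)).2
  let Q : Set X := ⋃ g : Γ, (fun x => g • x) ⁻¹' (A \ ⋃ k, M k)
  have hQ : ∀ (g : Γ) x, x ∈ Q → g • x ∈ Q := by
    intro g x hx
    obtain ⟨h, hh⟩ := mem_iUnion.1 hx
    exact mem_iUnion.2 ⟨h * g⁻¹, by simpa [mul_smul] using hh⟩
  have hQ' : ∀ (g : Γ) x, g • x ∈ Q → x ∈ Q := fun g x hx => by simpa using hQ g⁻¹ _ hx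
  obtain ⟨ψ, pψ, eψ⟩ := pφ.inv hU iφ
  refine ⟨Q, MeasurableSet.iUnion fun g => measurable_const_smul _ (hA.diff hU), hQ,
    ⟨φ, pφ, iφ.mono ?_, ?_⟩, ψ, pψ, ?_, ?_⟩
  · intro x hx
    by_contra h
    exact hx.2 (mem_iUnion.2 ⟨1, by simpa using ⟨hx.1, by simpa using h⟩⟩)
  · intro x hx
    have : x ∈ ⋃ k, M k := by
      by_contra h
      exact hx.2 (mem_iUnion.2 ⟨1, by simpa using ⟨hx.1, by simpa using h⟩⟩)
    obtain ⟨k, hk, e⟩ := f1 x this
    rw [e]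
    exact ⟨a2 (Nat.zero_le k) hk.2, fun h => hx.2 (hQ' _ _ h)⟩
  all_goals
    have c3 : ∀ y ∈ B ∩ Q, y ∈ φ '' (⋃ k, M k) := by
      intro y hy
      by_contra h
      obtain ⟨g, hg⟩ := mem_iUnion.1 hy.2
      obtain ⟨k, hk⟩ := hγ g⁻¹
      refine hg.2 (mem_iUnion.2 ⟨k, c1 _ hg.1 hg.2 k, ?_⟩)
      simpa [hk] using c2 y hy.1 h k
  · intro y hy z hz h
    obtain ⟨x, hx, rfl⟩ := c3 y hy
    obtain ⟨x', hx', rfl⟩ := c3 z hz
    rw [eψ x hx, eψ x' hx'] at h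
    rw [h]
  · intro y hy
    obtain ⟨x, hx, rfl⟩ := c3 y hy
    rw [eψ x hx]
    obtain ⟨k, hk, e⟩ := f1 x hx
    exact ⟨a1 (Nat.zero_le k) hk.1, hQ' (γ k) _ (e ▸ hy.2)⟩

end Pool.Agent.H.MP_5eb27c_an
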