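import Pool.Agent.H.MP_5eb27c_an.A

set_option autoImplicit false
open Set Function MeasureTheory

namespace Pool.Agent.H.MP_5eb27c_an

variable {Γ : Type*} {X : Type*} [Group Γ] [Countable Γ] [MeasurableSpace Γ]
  [DiscreteMeasurableSpace Γ] [MeasurableSpace X] [MulAction Γ X] [MeasurableConstSMul Γ X]

omit [Group Γ] [Countable Γ] [MeasurableSpace Γ] [DiscreteMeasurableSpace Γ] in
lemma subseq {p : X → ℕ → Prop} (hp : ∀ k, MeasurableSet {x | p x k})
    (h : ∀ x n, ∃ k, n ≤ k ∧ p x k) :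
    ∃ n : ℕ → X → ℕ, (∀ k, Measurable (n k)) ∧ (∀ k x, p x (n k x)) ∧
      ∀ x, StrictMono fun k => n k x := by
  classical
  let F : ℕ → X → ℕ := fun a x => Nat.find (h x a)
  have hF : ∀ a, Measurable (F a) := fun a => measurable_find (fun x => h x a) fun k => by
    by_cases hk : a ≤ k
    · simpa [hk] using hp k
    · simp [hk]
  let n : ℕ → X → ℕ := fun k => Nat.rec (F 0) (fun _ f x => F (f x + 1) x) k
  have e : ∀ k x, n (k + 1) x = F (n k x + 1) x := fun _ _ => rfl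
  refine ⟨n, fun k => ?_, fun k x => ?_, fun x => strictMono_nat_of_lt_succ fun k => ?_⟩
  · induction k with
    | zero => exact hF 0
    | succ k ih => exact meas_sel (F := fun a x => F (a + 1) x) (fun a => hF _) ih
  · cases k with
    | zero => exact (Nat.find_spec (h x 0)).2
    | succ k => exact (Nat.find_spec (h x _)).2
  · rw [e]; exact (Nat.find_spec (h x _)).1

lemma cancel {A B : Set X} (hA : MeasurableSet A) (hB : MeasurableSet B) (m : ℕ)
    {φ : ℕ → X → X} (pφ : ∀ i, PW Γ (φ i)) {lab : ℕ → X → ℕ} (ml : ∀ i, Measurable (lab i))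
    (hm : ∀ i ≤ m, ∀ x ∈ A, φ i x ∈ B ∧ lab i x < m)
    (hi : ∀ i ≤ m, ∀ j ≤ m, ∀ x ∈ A, ∀ y ∈ A, φ i x = φ j y → lab i x = lab j y →
      i = j ∧ x = y) : Le Γ A B := by
  classical
  obtain ⟨Q, mQ, iQ, ⟨χ, pχ, iχ, mχ⟩, ψ, pψ, iψ, mψ⟩ := compare (Γ := Γ) hA hB
  have pq : ∀ i, ∀ x ∈ Q, φ i x ∈ Q := fun i x hx => by
    obtain ⟨f, -, e⟩ := pφ i
    rw [e]; exact iQ _ _ hx
  let w : ℕ → X → X × ℕ := fun k => Nat.rec (fun x => (φ m x, lab m x))
    (fun _ f x => (φ (f x).2 (ψ (f x).1), lab (f x).2 (ψ (f x).1))) k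
  have w0 : ∀ x, w 0 x = (φ m x, lab m x) := fun _ => rfl
  have w1 : ∀ k x, w (k + 1) x = (φ (w k x).2 (ψ (w k x).1), lab (w k x).2 (ψ (w k x).1)) :=
    fun _ _ => rfl
  have wm : ∀ k, PW Γ (fun x => (w k x).1) ∧ Measurable fun x => (w k x).2 := by
    intro k
    induction k with
    | zero => exact ⟨pφ m, ml m⟩
    | succ k ih =>
      exact ⟨pw_sel (φ := fun i x => φ i (ψ (w k x).1))
        (fun i => (pφ i).comp (pψ.comp ih.1)) ih.2,
        meas_sel (F := fun i x => lab i (ψ (w k x).1))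
          (fun i => (ml i).comp (pψ.comp ih.1).meas) ih.2⟩
  have wb : ∀ x ∈ A ∩ Q, ∀ k, (w k x).1 ∈ B ∩ Q ∧ (w k x).2 < m := by
    intro x hx k
    induction k with
    | zero => exact ⟨⟨(hm m le_rfl x hx.1).1, pq _ _ hx.2⟩, (hm m le_rfl x hx.1).2⟩
    | succ k ih =>
      have h1 := mψ ih.1
      have h2 := hm _ ih.2.le _ h1.1
      exact ⟨⟨h2.1, pq _ _ h1.2⟩, h2.2⟩
  have wi : ∀ x ∈ A ∩ Q, ∀ y ∈ A ∩ Q, ∀ k l, w k x = w l y → k = l ∧ x = y := by
    intro x hx y hy k
    induction k with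
    | zero =>
      intro l h
      cases l with
      | zero =>
        rw [w0, w0, Prod.mk.injEq] at h
        exact ⟨rfl, (hi m le_rfl m le_rfl x hx.1 y hy.1 h.1 h.2).2⟩
      | succ l =>
        rw [w0, w1, Prod.mk.injEq] at h
        have h1 := wb y hy l
        exact absurd (hi m le_rfl _ h1.2.le x hx.1 _ (mψ h1.1).1 h.1 h.2).1 h1.2.ne'
    | succ k ih =>
      intro l h
      have h0 := wb x hx k
      cases l with
      | zero =>
        rw [w0, w1, Prod.mk.injEq] at h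
        exact absurd (hi _ h0.2.le m le_rfl _ (mψ h0.1).1 y hy.1 h.1 h.2).1 h0.2.ne
      | succ l =>
        rw [w1, w1, Prod.mk.injEq] at h
        have h1 := wb y hy l
        obtain ⟨h2, h3⟩ := hi _ h0.2.le _ h1.2.le _ (mψ h0.1).1 _ (mψ h1.1).1 h.1 h.2
        obtain ⟨h4, h5⟩ := ih l (Prod.ext (iψ h0.1 h1.1 h3) h2)
        exact ⟨by rw [h4], h5⟩
  let P : ℕ → Set X := fun i => (A ∩ Q) ∩ ⋂ n, ⋃ k, {x | n ≤ k ∧ (w k x).2 = i}
  have mw : ∀ k i, MeasurableSet {x | (w k x).2 = i} :=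
    fun k i => (wm k).2 (measurableSet_singleton i)
  have mP : ∀ i, MeasurableSet (P i) := fun i => (hA.inter mQ).inter
    (MeasurableSet.iInter fun n => MeasurableSet.iUnion fun k => by
      by_cases hk : n ≤ k
      · simpa [hk] using mw k i
      · simp [hk])
  have sP : ∀ i, Sw Γ (P i) (B ∩ Q) := by
    intro i
    obtain ⟨n, n1, n2, n3⟩ := subseq (p := fun x k => (w k x).2 = i ∨ x ∉ P i)
      (fun k => (mw k i).union (mP i).compl) (fun x a => by
        by_cases hx : x ∈ P i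
        · obtain ⟨k, hk⟩ := mem_iUnion.1 (mem_iInter.1 hx.2 a)
          exact ⟨k, hk.1, Or.inl hk.2⟩
        · exact ⟨a, le_rfl, Or.inr hx⟩)
    refine hotel (mP i) (θ := fun k x => (w (n k x) x).1)
      (fun k => pw_sel (φ := fun a x => (w a x).1) (fun a => (wm a).1) (n1 k))
      (fun k x hx => (wb x hx.1 _).1) fun k l x hx y hy h => ?_
    have h1 := (n2 k x).resolve_right (not_not.2 hx)
    have h2 := (n2 l y).resolve_right (not_not.2 hy)
    obtain ⟨h3, rfl⟩ := wi x hx.1 y hy.1 _ _ (Prod.ext h (h1.trans h2.symm))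
    exact ⟨(n3 x).injective h3, rfl⟩
  have cov : A ∩ Q ⊆ ⋃ i ∈ Finset.range m, P i := by
    intro x hx
    by_contra h
    have h1 : ∀ i, ∃ n, i < m → ∀ k, n ≤ k → (w k x).2 ≠ i := by
      intro i
      by_contra h2
      push Not at h2
      refine h (mem_iUnion₂.2 ⟨i, Finset.mem_range.2 (h2 0).1, hx, mem_iInter.2 fun n => ?_⟩)
      obtain ⟨k, hk⟩ := (h2 n).2
      exact mem_iUnion.2 ⟨k, hk⟩
    choose n hn using h1
    have h3 := (wb x hx ((Finset.range m).sup n)).2
    exact hn _ h3 _ (Finset.le_sup (f := n) (Finset.mem_range.2 h3)) rfl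
  obtain ⟨α, -, pα, -, iα, -, mα, -⟩ := sw_biUnion mP sP m
  refine ⟨fun x => if x ∈ Q then α x else χ x, pw_ite pα pχ mQ, ?_, ?_⟩
  · intro x hx y hy h
    by_cases h1 : x ∈ Q <;> by_cases h2 : y ∈ Q <;> simp only [h1, h2, if_true, if_false] at h
    · exact iα (cov ⟨hx, h1⟩) (cov ⟨hy, h2⟩) h
    · exact absurd (h ▸ (mα (cov ⟨hx, h1⟩)).2) (mχ ⟨hy, h2⟩).2
    · exact absurd (h ▸ (mα (cov ⟨hy, h2⟩)).2) (mχ ⟨hx, h1⟩).2
    · exact iχ ⟨hx, h1⟩ ⟨hy, h2⟩ h
  · intro x hx
    by_cases h1 : x ∈ Q <;> simp only [h1, if_true, if_false]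
    · exact (mα (cov ⟨hx, h1⟩)).1
    · exact (mχ ⟨hx, h1⟩).1

omit [Group Γ] [Countable Γ] [MeasurableSpace Γ] [DiscreteMeasurableSpace Γ] in
open Classical in
lemma meas_filter {ι : Type*} [Fintype ι] {S : ι → Set X} (hS : ∀ i, MeasurableSet (S i)) :
    @Measurable X (Finset ι) _ ⊤ fun x => Finset.univ.filter fun i => x ∈ S i := by
  letI : MeasurableSpace (Finset ι) := ⊤
  refine measurable_to_countable' fun s => ?_
  have : (fun x => Finset.univ.filter fun i => x ∈ S i) ⁻¹' {s} =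
      ⋂ i, if i ∈ s then S i else (S i)ᶜ := by
    ext x
    simp only [mem_preimage, mem_singleton_iff, mem_iInter, Finset.ext_iff, Finset.mem_filter,
      Finset.mem_univ, true_and]
    refine forall_congr' fun i => ?_
    split_ifs with h <;> simp [h]
  rw [this]
  refine MeasurableSet.iInter fun i => ?_
  split_ifs
  exacts [hS i, (hS i).compl]

open Classical in
lemma count_le {ι : Type*} [Fintype ι] [Nonempty ι] (g : ι → Γ) {A B : Set X}
    (hA : MeasurableSet A) (hB : MeasurableSet B) (m : ℕ)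
    (h1 : ∀ x ∈ A, m < (Finset.univ.filter fun i => g i • x ∈ B).card)
    (h2 : ∀ y ∈ B, (Finset.univ.filter fun i => (g i)⁻¹ • y ∈ A).card ≤ m) : Le Γ A B := by
  letI : MeasurableSpace (Finset ι) := ⊤
  haveI : DiscreteMeasurableSpace (Finset ι) := ⟨fun _ => trivial⟩
  let e : Finset ι → ℕ → ι := fun s j =>
    if h : j < s.card then (s.equivFin.symm ⟨j, h⟩ : ι) else Classical.arbitrary ι
  let r : Finset ι → ι → ℕ := fun s i => if h : i ∈ s then (s.equivFin ⟨i, h⟩ : ℕ) else 0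
  have e1 : ∀ s j, j < s.card → e s j ∈ s := fun s j h => by simp [e, h]
  have e2 : ∀ s j k, j < s.card → k < s.card → e s j = e s k → j = k := by
    intro s j k hj hk h
    simp only [e, dif_pos hj, dif_pos hk] at h
    simpa using s.equivFin.symm.injective (Subtype.ext h)
  have r1 : ∀ s i, i ∈ s → r s i < s.card := fun s i h => by simp [r, h]
  have r2 : ∀ s i j, i ∈ s → j ∈ s → r s i = r s j → i = j := by
    intro s i j hi hj h
    simp only [r, dif_pos hi, dif_pos hj] at h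
    simpa using s.equivFin.injective (Fin.ext h)
  let S : X → Finset ι := fun x => Finset.univ.filter fun i => g i • x ∈ B
  let T : X → Finset ι := fun y => Finset.univ.filter fun i => (g i)⁻¹ • y ∈ A
  have mS : Measurable S := meas_filter (S := fun i => (fun x => g i • x) ⁻¹' B)
    fun i => measurable_const_smul _ hB
  have mT : Measurable T := meas_filter (S := fun i => (fun x => (g i)⁻¹ • x) ⁻¹' A)
    fun i => measurable_const_smul _ hA
  have pφ : ∀ j, PW Γ fun x => g (e (S x) j) • x :=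
    fun j => pw_sel (φ := fun s x => g (e s j) • x) (fun s => pw_const _) mS
  have k1 : ∀ j ≤ m, ∀ x ∈ A, g (e (S x) j) • x ∈ B := fun j hj x hx =>
    (Finset.mem_filter.1 (e1 (S x) j (hj.trans_lt (h1 x hx)))).2
  have k2 : ∀ j, ∀ x ∈ A, e (S x) j ∈ T (g (e (S x) j) • x) := fun j x hx => by simpa [T] using hx
  refine cancel hA hB m pφ (lab := fun j x => r (T (g (e (S x) j) • x)) (e (S x) j))
    (fun j => ?_) (fun j hj x hx => ⟨k1 j hj x hx, ?_⟩) fun i hi j hj x hx y hy h h' => ?_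
  · exact meas_sel (F := fun s x => r (T (g (e s j) • x)) (e s j))
      (fun s => meas_sel (F := fun t _ => r t (e s j)) (fun _ => measurable_const)
        (mT.comp (measurable_const_smul _))) mS
  · exact (r1 _ _ (k2 j x hx)).trans_le (h2 _ (k1 j hj x hx))
  · beta_reduce at h h'
    have a1 := k2 i x hx
    have a2 := k2 j y hy
    rw [← h] at a2 h'
    have a3 := r2 _ _ _ a1 a2 h'
    rw [← a3] at h
    have a4 : x = y := smul_left_cancel _ h
    subst a4
    exact ⟨e2 _ _ _ (hi.trans_lt (h1 x hx)) (hj.trans_lt (h1 x hx)) a3, rfl⟩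

end Pool.Agent.H.MP_5eb27c_an
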