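import Pool.Agent.H.MP_5eb27c_an.B

set_option autoImplicit false
open Set Function MeasureTheory MeasureTheory.Measure
open scoped Pointwise NNReal ENNReal

namespace Pool.Agent.H.MP_5eb27c_an

variable {G : Type*} [Group G] [TopologicalSpace G] [IsTopologicalGroup G] [T2Space G]
  [LocallyCompactSpace G] [MeasurableSpace G] [BorelSpace G]

def Pk (A B : Set G) : Prop := ∃ f : G → G, (range f).Countable ∧
  (∀ g, MeasurableSet (f ⁻¹' {g})) ∧ InjOn (fun x => f x * x) A ∧ MapsTo (fun x => f x * x) A B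

omit [T2Space G] [LocallyCompactSpace G] in
open Classical in
lemma count_pk {ι : Type} [Fintype ι] [Nonempty ι] (g : ι → G) {A B : Set G}
    (hA : MeasurableSet A) (hB : MeasurableSet B) (m : ℕ)
    (h1 : ∀ x ∈ A, m < (Finset.univ.filter fun i => g i * x ∈ B).card)
    (h2 : ∀ y ∈ B, (Finset.univ.filter fun i => (g i)⁻¹ * y ∈ A).card ≤ m) : Pk A B := by
  letI : MulAction (FreeGroup ι) G := MulAction.compHom G (FreeGroup.lift g)
  letI : MeasurableSpace (FreeGroup ι) := ⊤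
  haveI : DiscreteMeasurableSpace (FreeGroup ι) := ⟨fun _ => trivial⟩
  have e : ∀ (a : FreeGroup ι) (x : G), a • x = FreeGroup.lift g a * x := fun _ _ => rfl
  haveI : MeasurableConstSMul (FreeGroup ι) G := ⟨fun a => measurable_const_mul _⟩
  obtain ⟨φ, ⟨f, hf, ef⟩, i, mp⟩ := count_le (Γ := FreeGroup ι) FreeGroup.of hA hB m
    (by simpa [e] using h1) (by simpa [e] using h2)
  have : φ = fun x => FreeGroup.lift g (f x) * x := funext fun x => by rw [ef, e]
  subst this
  refine ⟨fun x => FreeGroup.lift g (f x), (countable_range (FreeGroup.lift g)).mono ?_,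
    fun a => ?_, i, mp⟩
  · rintro _ ⟨x, rfl⟩; exact ⟨_, rfl⟩
  · exact hf (t := (FreeGroup.lift g) ⁻¹' {a}) trivial

variable (μ : Measure G) [IsHaarMeasure μ] [μ.Regular]

omit [T2Space G] in
lemma rt (y : G) : ∃ c : ℝ≥0, Measure.map (· * y) μ = c • μ := by
  haveI : (Measure.map (· * y) μ).Regular := Regular.map (Homeomorph.mulRight y)
  exact ⟨_, isMulLeftInvariant_eq_smul_of_regular _ μ⟩

lemma rt_bound {L : Set G} (hL : IsCompact L) : ∃ c : ℝ≥0, c ≠ 0 ∧ ∀ y ∈ L, ∃ d : ℝ≥0, d ≤ c ∧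
    Measure.map (· * y) μ = d • μ := by
  obtain ⟨C, hC, h1⟩ := exists_compact_mem_nhds (1 : G)
  have p : μ C ≠ 0 := (measure_pos_of_mem_nhds μ h1).ne'
  have f1 : μ C ≠ ∞ := hC.measure_lt_top.ne
  have f2 : μ (C * L⁻¹) ≠ ∞ := (hC.mul hL.inv).measure_lt_top.ne
  refine ⟨(μ (C * L⁻¹) / μ C).toNNReal + 1, by positivity, fun y hy => ?_⟩
  obtain ⟨d, hd⟩ := rt μ y
  refine ⟨d, ?_, hd⟩
  have h2 : (d : ℝ≥0∞) * μ C ≤ μ (C * L⁻¹) := by
    have : Measure.map (· * y) μ C = d * μ C := by rw [hd]; simp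
    rw [← this, Measure.map_apply (measurable_mul_const y) hC.measurableSet]
    exact measure_mono fun x hx => ⟨x * y, hx, y⁻¹, by simpa using hy, by simp⟩
  have h3 : (d : ℝ≥0∞) ≤ μ (C * L⁻¹) / μ C :=
    (ENNReal.le_div_iff_mul_le (Or.inl p) (Or.inl f1)).2 h2
  have h4 : d ≤ (μ (C * L⁻¹) / μ C).toNNReal := by
    rw [← ENNReal.coe_le_coe, ENNReal.coe_toNNReal (ENNReal.div_ne_top f2 p)]
    exact h3
  exact h4.trans (le_add_of_nonneg_right zero_le_one)

lemma weights {K O L : Set G} (hK : IsCompact K) (hO : IsOpen O) (hL : IsCompact L)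
    (hne : K.Nonempty) {c : ℝ≥0} (c0 : c ≠ 0)
    (hc : ∀ y ∈ L, ∃ d : ℝ≥0, d ≤ c ∧ Measure.map (· * y) μ = d • μ) (h : c * μ K < μ O⁻¹) :
    ∃ (u v : G → ℝ) (ι : Type) (_ : Fintype ι) (w : ι → ℝ) (z : ι → G) (δ : ℝ), 0 < δ ∧
      (∀ i, 0 ≤ w i) ∧ (∀ x, u x ≤ 1) ∧ (∀ x, x ∉ O⁻¹ → u x = 0) ∧ (∀ x, 0 ≤ v x ∧ v x ≤ 1) ∧
      (∀ x ∈ K, v x = 1) ∧ ∀ x ∈ K, ∀ y ∈ L,
        ∑ i, w i * v (z i * y) + δ < ∑ i, w i * u (x⁻¹ * z i) := by
  obtain ⟨O', hO', cO', h1⟩ := hO.inv.exists_lt_isCompact h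
  have c1 : (c : ℝ≥0∞) ≠ 0 := by simpa using c0
  have h2 : μ K < μ O' / c := by
    rw [ENNReal.lt_div_iff_mul_lt (Or.inl c1) (Or.inl ENNReal.coe_ne_top), mul_comm]; exact h1
  obtain ⟨V, hKV, oV, h3⟩ := K.exists_isOpen_lt_of_lt _ h2
  have fO : μ O' ≠ ∞ := cO'.measure_lt_top.ne
  have fV : μ V ≠ ∞ := (h3.trans_le le_top).ne
  rw [ENNReal.lt_div_iff_mul_lt (Or.inl c1) (Or.inl ENNReal.coe_ne_top)] at h3
  have h4 : μ.real V * c < μ.real O' := by
    have := (ENNReal.toReal_lt_toReal (ENNReal.mul_ne_top fV ENNReal.coe_ne_top) fO).2 h3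
    simpa [Measure.real] using this
  obtain ⟨u, u1, u0, uc, ub⟩ := exists_continuous_one_zero_of_isCompact cO'
    hO.inv.isClosed_compl (disjoint_compl_right_iff_subset.2 hO')
  obtain ⟨v, v1, v0, vc, vb⟩ := exists_continuous_one_zero_of_isCompact hK
    oV.isClosed_compl (disjoint_compl_right_iff_subset.2 hKV)
  have iu : Integrable u μ := u.continuous.integrable_of_hasCompactSupport uc
  have iv : Integrable v μ := v.continuous.integrable_of_hasCompactSupport vc
  have lu : μ.real O' ≤ ∫ x, u x ∂μ := by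
    rw [← integral_indicator_one cO'.measurableSet]
    refine integral_mono ((integrable_indicator_iff cO'.measurableSet).2
      (integrableOn_const fO)) iu fun x => ?_
    by_cases hx : x ∈ O'
    · simp [hx, u1 hx]
    · simp [hx, (ub x).1]
  have lv : ∫ x, v x ∂μ ≤ μ.real V := by
    rw [← integral_indicator_one oV.measurableSet]
    refine integral_mono iv ((integrable_indicator_iff oV.measurableSet).2
      (integrableOn_const fV)) fun x => ?_
    by_cases hx : x ∈ V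
    · simp [hx, (vb x).2]
    · simp [hx, v0 hx]
  have v00 : 0 ≤ ∫ x, v x ∂μ := integral_nonneg fun x => (vb x).1
  obtain ⟨C, hC⟩ : ∃ C, C = K * O' ∪ (K * tsupport u ∪ tsupport v * L⁻¹) := ⟨_, rfl⟩
  have cC : IsCompact C := hC ▸ (hK.mul cO').union ((hK.mul uc).union (IsCompact.mul vc hL.inv))
  have pO : μ O' ≠ 0 := (zero_le.trans_lt h1).ne'
  have pC : μ C ≠ 0 := by
    obtain ⟨x, hx⟩ := hne
    intro h0
    apply pO
    rw [← measure_preimage_mul μ x⁻¹ O']
    refine measure_mono_null (fun a ha => ?_) h0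
    rw [hC]
    exact Or.inl ⟨x, hx, x⁻¹ * a, ha, by simp⟩
  have fC : μ C ≠ ∞ := cC.measure_lt_top.ne
  haveI : CompactSpace K := isCompact_iff_compactSpace.1 hK
  haveI : CompactSpace L := isCompact_iff_compactSpace.1 hL
  let F : C(G × (K × L), ℝ) := ⟨fun p => u ((p.2.1 : G)⁻¹ * p.1) - v (p.1 * p.2.2), by fun_prop⟩
  let Ψ : G → C(K × L, ℝ) := F.curry
  have iΨ : IntegrableOn Ψ C μ :=
    F.curry.continuous.continuousOn.integrableOn_compact' cC cC.measurableSet
  have hav := (convex_convexHull ℝ (range Ψ)).set_average_mem_closure pC fC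
    (Filter.Eventually.of_forall fun x => subset_convexHull ℝ _ (mem_range_self x)) iΨ
  have rC : 0 < μ.real C := ENNReal.toReal_pos pC fC
  obtain ⟨δ, hδ⟩ : ∃ δ, δ = (μ.real C)⁻¹ * (μ.real O' - μ.real V * c) := ⟨_, rfl⟩
  have δ0 : 0 < δ := hδ ▸ mul_pos (inv_pos.2 rC) (sub_pos.2 h4)
  have key : ∀ p : K × L, δ ≤ (⨍ a in C, Ψ a ∂μ) p := by
    rintro ⟨x, y⟩
    rw [setAverage_eq, ContinuousMap.smul_apply, ContinuousMap.integral_apply iΨ, hδ, smul_eq_mul]
    refine mul_le_mul_of_nonneg_left ?_ (inv_pos.2 rC).le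
    obtain ⟨d, hd, ed⟩ := hc y y.2
    have e1 : ∫ a in C, Ψ a (x, y) ∂μ = ∫ a, (u ((x : G)⁻¹ * a) - v (a * y)) ∂μ := by
      refine setIntegral_eq_integral_of_forall_compl_eq_zero fun a ha => ?_
      have a1 : u ((x : G)⁻¹ * a) = 0 := by
        refine image_eq_zero_of_notMem_tsupport fun h5 => ha ?_
        rw [hC]
        exact Or.inr (Or.inl ⟨x, x.2, _, h5, by simp⟩)
      have a2 : v (a * y) = 0 := by
        refine image_eq_zero_of_notMem_tsupport fun h5 => ha ?_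
        rw [hC]
        exact Or.inr (Or.inr ⟨_, h5, (y : G)⁻¹, by simp, by simp⟩)
      change u ((x : G)⁻¹ * a) - v (a * y) = 0
      rw [a1, a2, sub_zero]
    have i2 : Integrable (fun a => v (a * y)) μ :=
      (v.continuous.comp (continuous_mul_const _)).integrable_of_hasCompactSupport
        (vc.comp_homeomorph (Homeomorph.mulRight (y : G)))
    have e2 : ∫ a, v (a * y) ∂μ = d * ∫ a, v a ∂μ := by
      have := integral_map_equiv (μ := μ) (MeasurableEquiv.mulRight (y : G)) v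
      simp only [MeasurableEquiv.coe_mulRight] at this
      rw [← this, ed]
      simp [NNReal.smul_def]
    rw [e1, integral_sub (iu.comp_mul_left _) i2, integral_mul_left_eq_self, e2]
    have : (d : ℝ) ≤ c := hd
    nlinarith [NNReal.coe_nonneg c, mul_le_mul_of_nonneg_right this v00,
      mul_le_mul_of_nonneg_left lv (NNReal.coe_nonneg c)]
  obtain ⟨b, hb, hd⟩ := Metric.mem_closure_iff.1 hav (δ / 2) (half_pos δ0)
  obtain ⟨ι, _, w, z, w0, -, hz, rfl⟩ := mem_convexHull_iff_exists_fintype.1 hb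
  choose a ha using hz
  refine ⟨u, v, ι, inferInstance, w, a, δ / 2, half_pos δ0, w0, fun x => (ub x).2,
    fun x hx => u0 hx, fun x => vb x, fun x hx => v1 hx, fun x hx y hy => ?_⟩
  have k1 := key (⟨x, hx⟩, ⟨y, hy⟩)
  have k2 := (ContinuousMap.dist_apply_le_dist (f := ⨍ a in C, Ψ a ∂μ) (g := ∑ i, w i • z i)
    (⟨x, hx⟩, ⟨y, hy⟩)).trans_lt hd
  rw [Real.dist_eq] at k2
  have k3 : (∑ i, w i • z i) (⟨x, hx⟩, ⟨y, hy⟩) =
      ∑ i, w i * u (x⁻¹ * a i) - ∑ i, w i * v (a i * y) := by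
    rw [← Finset.sum_sub_distrib, ContinuousMap.sum_apply]
    refine Finset.sum_congr rfl fun i _ => ?_
    rw [← ha i, ← mul_sub]
    rfl
  rw [k3] at k2
  linarith [(abs_lt.1 k2).2]

lemma pack_compact {K O L : Set G} (hK : IsCompact K) (hO : IsOpen O) (hL : IsCompact L)
    (hOL : O ⊆ L) {c : ℝ≥0} (c0 : c ≠ 0)
    (hc : ∀ y ∈ L, ∃ d : ℝ≥0, d ≤ c ∧ Measure.map (· * y) μ = d • μ) (h : c * μ K < μ O⁻¹) :
    Pk K O := by
  classical
  rcases K.eq_empty_or_nonempty with rfl | hne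
  · exact ⟨fun _ => 1, by simp, fun g => by by_cases h : 1 = g <;> simp [preimage, h],
      injOn_empty _, mapsTo_empty _ _⟩
  obtain ⟨u, v, ι, _, w, z, δ, δ0, w0, u1, u0, vb, v1, hk⟩ := weights μ hK hO hL hne c0 hc h
  obtain ⟨D, hD⟩ := exists_nat_gt ((Fintype.card ι : ℝ) / δ)
  rw [div_lt_iff₀ δ0] at hD
  let n : ι → ℕ := fun i => ⌈(D : ℝ) * w i⌉₊
  let g : (Σ i, Fin (n i)) → G := fun k => (z k.1)⁻¹
  have cnt : ∀ p : ι → Prop, ((Finset.univ.filter fun k : Σ i, Fin (n i) => p k.1).card : ℝ) =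
      ∑ i, if p i then (n i : ℝ) else 0 := by
    intro p
    rw [Finset.card_filter, Fintype.sum_sigma]
    push_cast
    refine Finset.sum_congr rfl fun i _ => ?_
    split_ifs <;> simp
  have key : ∀ x ∈ K, ∀ y ∈ O, (Finset.univ.filter fun k => (g k)⁻¹ * y ∈ K).card <
      (Finset.univ.filter fun k => g k * x ∈ O).card := by
    intro x hx y hy
    have a1 := cnt fun i => ((z i)⁻¹)⁻¹ * y ∈ K
    have a2 := cnt fun i => (z i)⁻¹ * x ∈ O
    have a3 := hk x hx y (hOL hy)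
    have a4 : ∑ i, (if ((z i)⁻¹)⁻¹ * y ∈ K then (n i : ℝ) else 0) ≤
        ∑ i, (D * (w i * v (z i * y)) + 1) := by
      refine Finset.sum_le_sum fun i _ => ?_
      have := mul_nonneg (Nat.cast_nonneg (α := ℝ) D) (mul_nonneg (w0 i) (vb (z i * y)).1)
      split_ifs with h5
      · rw [v1 _ (by simpa using h5), mul_one]
        exact (Nat.ceil_lt_add_one (mul_nonneg (Nat.cast_nonneg D) (w0 i))).le
      · linarith
    have a5 : ∑ i, D * (w i * u (x⁻¹ * z i)) ≤
        ∑ i, (if (z i)⁻¹ * x ∈ O then (n i : ℝ) else 0) := by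
      refine Finset.sum_le_sum fun i _ => ?_
      split_ifs with h5
      · have := mul_le_mul_of_nonneg_left (u1 (x⁻¹ * z i))
          (mul_nonneg (Nat.cast_nonneg (α := ℝ) D) (w0 i))
        have h6 : (D : ℝ) * w i ≤ n i := Nat.le_ceil _
        linarith
      · rw [u0 _ (by simpa using h5)]; simp
    rw [Finset.sum_add_distrib, ← Finset.mul_sum] at a4
    rw [← Finset.mul_sum] at a5
    simp only [Finset.sum_const, Finset.card_univ, nsmul_eq_mul, mul_one] at a4
    have a6 := mul_le_mul_of_nonneg_left a3.le (Nat.cast_nonneg (α := ℝ) D)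
    have : ((Finset.univ.filter fun k => (g k)⁻¹ * y ∈ K).card : ℝ) <
      (Finset.univ.filter fun k => g k * x ∈ O).card := by
      have b1 : ((Finset.univ.filter fun k => (g k)⁻¹ * y ∈ K).card : ℝ) = _ := a1
      have b2 : ((Finset.univ.filter fun k => g k * x ∈ O).card : ℝ) = _ := a2
      rw [b1, b2]
      linarith
    exact_mod_cast this
  have hOne : O.Nonempty := by
    rcases O.eq_empty_or_nonempty with rfl | h'
    · simp at h
    · exact h'
  obtain ⟨x, hx, hm⟩ : ∃ x ∈ K, ∀ x' ∈ K, (Finset.univ.filter fun k => g k * x ∈ O).card ≤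
      (Finset.univ.filter fun k => g k * x' ∈ O).card :=
    ⟨Function.argminOn (fun x => (Finset.univ.filter fun k => g k * x ∈ O).card) K hne,
      Function.argminOn_mem _ _ _, fun x' hx' => Function.argminOn_le
        (fun x => (Finset.univ.filter fun k => g k * x ∈ O).card) K hx'⟩
  obtain ⟨y, hy⟩ := hOne
  have p1 := key x hx y hy
  haveI : Nonempty (Σ i, Fin (n i)) := by
    obtain ⟨k, -⟩ := Finset.card_pos.1 (zero_le.trans_lt p1)
    exact ⟨k⟩
  refine count_pk g hK.measurableSet hO.measurableSet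
    ((Finset.univ.filter fun k => g k * x ∈ O).card - 1) (fun x' hx' => ?_) fun y' hy' => ?_
  · have := hm x' hx'
    convert (show (Finset.univ.filter fun k => g k * x ∈ O).card - 1 <
      (Finset.univ.filter fun k => g k * x' ∈ O).card by omega)
  · have := key x hx y' hy'
    convert (show (Finset.univ.filter fun k => (g k)⁻¹ * y' ∈ K).card ≤
      (Finset.univ.filter fun k => g k * x ∈ O).card - 1 by omega)

end Pool.Agent.H.MP_5eb27c_an
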