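import Pool.Agent.H.MP_5eb27c_an.C

set_option autoImplicit false
open Set Function MeasureTheory MeasureTheory.Measure Filter Topology
open scoped Pointwise NNReal ENNReal

namespace Pool.Agent.H.MP_5eb27c_an

variable {G : Type*} [Group G] [TopologicalSpace G] [IsTopologicalGroup G] [T2Space G]
  [LocallyCompactSpace G] [MeasurableSpace G] [BorelSpace G]
  (μ : Measure G) [IsHaarMeasure μ] [μ.Regular]

lemma hull {E : Set G} (hE : μ E = 0) {η : ℝ≥0∞} (hη : η ≠ 0) :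
    ∃ Ω : Set G, IsOpen Ω ∧ ∃ η' < η, (∀ C ⊆ Ω, IsCompact C → μ C ≤ η') ∧
      ∃ S : ℕ → Set G, (∀ n, IsCompact (S n) ∧ S n ⊆ Ω) ∧ E ⊆ ⋃ n, S n := by
  obtain ⟨V, hEV, oV, hV⟩ := E.exists_isOpen_lt_of_lt η (hE ▸ pos_iff_ne_zero.2 hη)
  have fV : μ V ≠ ∞ := (hV.trans_le le_top).ne
  obtain ⟨ε, -, ε0, εt⟩ := exists_seq_strictAnti_tendsto' (show (0 : ℝ≥0∞) < 1 from one_pos)
  choose K KV cK mK using fun n => oV.measurableSet.exists_isCompact_sdiff_lt fV (ε0 n).1.ne'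
  have nul : μ (V \ ⋃ n, K n) = 0 := by
    refine le_antisymm (ge_of_tendsto' εt fun n => (measure_mono ?_).trans (mK n).le) zero_le
    exact sdiff_subset_sdiff_right (subset_iUnion K n)
  choose T hT KT using fun n => compact_open_separated_mul_right (cK n) oV (KV n)
  obtain ⟨W0, cW0, nW0⟩ := exists_compact_mem_nhds (1 : G)
  have step : ∀ (n : ℕ) (A : {A : Set G // A ∈ 𝓝 (1 : G)}), ∃ B : {A : Set G // A ∈ 𝓝 (1 : G)},
      IsClosed B.1 ∧ B.1⁻¹ = B.1 ∧ B.1 ⊆ A.1 ∩ T n := by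
    intro n A
    obtain ⟨B, b1, b2, b3, b4⟩ := exists_closed_nhds_one_inv_eq_mul_subset (inter_mem A.2 (hT n))
    exact ⟨⟨B, b1⟩, b2, b3, fun x hx => b4 ⟨x, hx, 1, mem_of_mem_nhds b1, mul_one x⟩⟩
  choose nx n1 n2 n3 using step
  let W' : ℕ → {A : Set G // A ∈ 𝓝 (1 : G)} := fun n => Nat.rec ⟨W0, nW0⟩ nx n
  let W : ℕ → Set G := fun n => (W' (n + 1)).1
  have w1 : ∀ n, W n ∈ 𝓝 (1 : G) := fun n => (W' (n + 1)).2
  have w2 : ∀ n, IsClosed (W n) := fun n => n1 n _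
  have w3 : ∀ n, ∀ x ∈ W n, x⁻¹ ∈ W n := fun n x hx => by
    have : (W n)⁻¹ = W n := n2 n _
    rw [← this]; simpa using hx
  have w4 : ∀ n, W (n + 1) ⊆ W n := fun n => (n3 (n + 1) _).trans inter_subset_left
  have w5 : ∀ n, W n ⊆ T n := fun n => (n3 n _).trans inter_subset_right
  have w6 : IsCompact (W 0) :=
    cW0.of_isClosed_subset (w2 0) ((n3 0 _).trans inter_subset_left)
  have nb : ∀ n (z : G), (fun w => z⁻¹ * w) ⁻¹' W n ∈ 𝓝 z := fun n z =>
    (continuous_const_mul z⁻¹).continuousAt.preimage_mem_nhds (by simpa using w1 n)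
  obtain ⟨N, hN⟩ : ∃ N, N = ⋂ n, W n := ⟨_, rfl⟩
  have oΩ : IsOpen (V * N) := oV.mul_right
  refine ⟨V * N, oΩ, μ V, hV, fun C hC cC => ?_,
    fun n => closure {z | ∀ w ∈ W n.unpair.1, z * w ∈ V * N} ∩ (K n.unpair.2 * W 0),
    fun n => ⟨((cK _).mul w6).inter_left isClosed_closure, fun z hz => ?_⟩, fun z hz => ?_⟩
  · obtain ⟨F, hF⟩ := cC.elim_finite_subcover (fun a : N => (fun x => x * (a : G)⁻¹) ⁻¹' V)
      (fun a => oV.preimage (continuous_mul_const _)) (fun x hx => by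
        obtain ⟨v, hv, a, ha, rfl⟩ := hC hx
        exact mem_iUnion.2 ⟨⟨a, ha⟩, by simpa using hv⟩)
    have h1 : C ⊆ V ∪ ⋃ a ∈ F, (fun x => x * ((a : N) : G)⁻¹) ⁻¹' (V \ ⋃ n, K n) := by
      intro x hx
      obtain ⟨a, ha, h⟩ := mem_iUnion₂.1 (hF hx)
      by_cases h' : x * (a : G)⁻¹ ∈ ⋃ n, K n
      · obtain ⟨n, hn⟩ := mem_iUnion.1 h'
        exact Or.inl (KT n ⟨_, hn, a, w5 n (mem_iInter.1 (hN ▸ a.2) n), by simp⟩)
      · exact Or.inr (mem_iUnion₂.2 ⟨a, ha, h, h'⟩)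
    have h2 : μ (⋃ a ∈ F, (fun x => x * ((a : N) : G)⁻¹) ⁻¹' (V \ ⋃ n, K n)) = 0 := by
      refine (measure_biUnion_null_iff F.countable_toSet).2 fun a _ => ?_
      obtain ⟨d, hd⟩ := rt μ (a : G)⁻¹
      rw [← Measure.map_apply (measurable_mul_const _)
        (oV.measurableSet.diff (MeasurableSet.iUnion fun n => (cK n).measurableSet)), hd]
      simp [nul]
    calc μ C ≤ μ V + _ := (measure_mono h1).trans (measure_union_le _ _)
      _ = μ V := by rw [h2, add_zero]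
  · obtain ⟨z', h1, h2⟩ := mem_closure_iff_nhds.1 hz.1 _ (nb n.unpair.1 z)
    simpa using h2 _ (w3 _ _ h1)
  · have zV := hEV hz
    obtain ⟨j, hj⟩ : ∃ j, ∀ w ∈ W j, z * w ∈ V * N := by
      by_contra h
      push Not at h
      have cl : IsClosed {w | z * w ∉ V * N} :=
        (oΩ.preimage (continuous_const_mul z)).isClosed_compl
      obtain ⟨w, hw⟩ := IsCompact.nonempty_iInter_of_sequence_nonempty_isCompact_isClosed
        (fun j => W j ∩ {w | z * w ∉ V * N}) (fun j => inter_subset_inter_left _ (w4 j))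
        h (w6.inter_right cl) (fun j => (w2 j).inter cl)
      rw [mem_iInter] at hw
      exact (hw 0).2 ⟨z, zV, w, hN ▸ mem_iInter.2 fun j => (hw j).1, rfl⟩
    obtain ⟨k, hk⟩ : ∃ k, z ∈ K k * W 0 := by
      by_contra h
      push Not at h
      refine (measure_pos_of_mem_nhds μ (inter_mem (oV.mem_nhds zV) (nb 0 z))).ne'
        (measure_mono_null (fun x hx => ?_) nul)
      refine ⟨hx.1, fun h' => ?_⟩
      obtain ⟨k, hk⟩ := mem_iUnion.1 h'
      exact h k ⟨x, hk, _, w3 _ _ hx.2, by simp⟩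
    exact mem_iUnion.2 ⟨Nat.pair j k, by simpa using ⟨subset_closure hj, hk⟩⟩

lemma cover {E : Set G} (hE : μ E = 0) {b : ℕ → ℝ≥0∞} (hb : ∀ j, b j ≠ 0) :
    ∃ L : ℕ → Set G, (∀ j, IsCompact (L j) ∧ μ (L j) < b j) ∧ E ⊆ ⋃ j, L j := by
  classical
  obtain ⟨Ω, oΩ, η, hη, hC, S, hS, ES⟩ := hull μ hE (hb 0)
  have step : ∀ (n : ℕ) (A : {A : Set G // IsCompact A ∧ A ⊆ Ω}),
      ∃ B : {A : Set G // IsCompact A ∧ A ⊆ Ω}, A.1 ∪ S n ⊆ interior B.1 := by
    intro n A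
    obtain ⟨B, b1, b2, b3⟩ := exists_compact_between (A.2.1.union (hS n).1) oΩ
      (union_subset A.2.2 (hS n).2)
    exact ⟨⟨B, b1, b3⟩, b2⟩
  choose nx hn using step
  let K' : ℕ → {A : Set G // IsCompact A ∧ A ⊆ Ω} :=
    fun n => Nat.rec ⟨∅, isCompact_empty, empty_subset _⟩ nx n
  let K : ℕ → Set G := fun n => (K' n).1
  have k1 : ∀ n, IsCompact (K n) := fun n => (K' n).2.1
  have k2 : ∀ n, μ (K n) ≤ η := fun n => hC _ (K' n).2.2 (k1 n)
  have k3 : ∀ n, K n ⊆ interior (K (n + 1)) := fun n => subset_union_left.trans (hn n _)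
  have k4 : ∀ n, S n ⊆ K (n + 1) :=
    fun n => (subset_union_right.trans (hn n _)).trans interior_subset
  have k5 : Monotone K := monotone_nat_of_le_succ fun n => (k3 n).trans interior_subset
  have mU : MeasurableSet (⋃ n, K n) := MeasurableSet.iUnion fun n => (k1 n).measurableSet
  have fU : μ (⋃ n, K n) ≠ ∞ := by
    rw [k5.measure_iUnion]
    exact ((iSup_le k2).trans_lt (hη.trans_le le_top)).ne
  have t := tendsto_measure_iInter_atTop (μ := μ) (s := fun n => (⋃ n, K n) \ K n)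
    (fun n => (mU.diff (k1 n).measurableSet).nullMeasurableSet)
    (fun _ _ h => sdiff_subset_sdiff_right (k5 h))
    ⟨0, ((measure_mono sdiff_subset).trans_lt fU.lt_top).ne⟩
  rw [← sdiff_iUnion, sdiff_self, measure_empty] at t
  have ex : ∀ k, ∃ n, k ≤ n ∧ μ ((⋃ n, K n) \ K n) < b (k + 1) := fun k =>
    ((eventually_ge_atTop k).and (t.eventually (gt_mem_nhds (pos_iff_ne_zero.2 (hb _))))).exists
  choose n n1 n2 using ex
  refine ⟨fun j => Nat.casesOn j (K (n 0 + 1))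
    fun k => K (n (k + 1) + 1) \ interior (K (n k + 1)), fun j => ?_, fun x hx => ?_⟩
  · cases j with
    | zero => exact ⟨k1 (n 0 + 1), (k2 (n 0 + 1)).trans_lt hη⟩
    | succ k =>
      exact ⟨(k1 (n (k + 1) + 1)).diff isOpen_interior, (measure_mono
        (sdiff_subset_sdiff (subset_iUnion K (n (k + 1) + 1)) (k3 _))).trans_lt (n2 k)⟩
  · obtain ⟨j, hj⟩ := mem_iUnion.1 (ES hx)
    have ex : ∃ k, x ∈ K (n k + 1) := ⟨j, k5 (Nat.succ_le_succ (n1 j)) (k4 j hj)⟩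
    have h1 := Nat.find_spec ex
    have h2 := fun m => Nat.find_min ex (m := m)
    generalize Nat.find ex = k at h1 h2
    cases k with
    | zero => exact mem_iUnion.2 ⟨0, h1⟩
    | succ k => exact mem_iUnion.2 ⟨k + 1, h1, fun h => h2 k (by omega) (interior_subset h)⟩

lemma pack {E U : Set G} (hE : μ E = 0) (hU : IsOpen U) (hne : U.Nonempty) : Pk E U := by
  classical
  rcases E.eq_empty_or_nonempty with rfl | ⟨e, he⟩
  · exact ⟨fun _ => 1, by simp, fun g => by by_cases h : 1 = g <;> simp [preimage, h],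
      injOn_empty _, mapsTo_empty _ _⟩
  have pt : ∀ x : G, μ {x} = 0 := fun x => by
    rw [← measure_preimage_mul μ (x * e⁻¹) {x}]
    exact measure_mono_null (fun y hy => by
      have : y = e := by simpa [mul_assoc, inv_mul_eq_one, eq_comm] using hy
      exact this ▸ he) hE
  obtain ⟨x, hx⟩ := hne
  obtain ⟨C, cC, xC, CU⟩ := exists_compact_subset hU hx
  haveI : Infinite (interior C) := by
    refine Set.infinite_coe_iff.2 fun hf => ?_
    refine (isOpen_interior.measure_pos μ ⟨x, xC⟩).ne' ?_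
    rw [← biUnion_of_singleton (interior C)]
    exact (measure_biUnion_null_iff hf.countable).2 fun y _ => pt y
  obtain ⟨O', o1, o2, o3⟩ := exists_seq_infinite_isOpen_pairwise_disjoint (interior C)
  let O : ℕ → Set G := fun j => Subtype.val '' O' j
  have oO : ∀ j, IsOpen (O j) := fun j => isOpen_interior.isOpenMap_subtype_val _ (o2 j)
  have OC : ∀ j, O j ⊆ C := by
    rintro j _ ⟨y, -, rfl⟩
    exact interior_subset y.2
  have dO : ∀ i j y, y ∈ O i → y ∈ O j → i = j := by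
    rintro i j _ ⟨y, hy, rfl⟩ ⟨z, hz, h⟩
    rw [Subtype.ext h] at hz
    exact o3.eq (not_disjoint_iff.2 ⟨y, hy, hz⟩)
  obtain ⟨c, c0, hc⟩ := rt_bound μ cC
  have c1 : (c : ℝ≥0∞) ≠ 0 := by simpa using c0
  obtain ⟨L, hL, EL⟩ := cover μ hE (b := fun j => μ (O j)⁻¹ / c) fun j =>
    ENNReal.div_ne_zero.2 ⟨((oO j).inv.measure_pos μ ((o1 j).nonempty.image _).inv).ne',
      ENNReal.coe_ne_top⟩
  have hp : ∀ j, Pk (L j) (O j) := fun j => pack_compact μ (hL j).1 (oO j) cC (OC j) c0 hc (by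
    have := (hL j).2
    rwa [ENNReal.lt_div_iff_mul_lt (Or.inl c1) (Or.inl ENNReal.coe_ne_top), mul_comm] at this)
  choose f f1 f2 f3 f4 using hp
  have ex : ∀ y, ∃ k, y ∈ L k ∨ y ∉ ⋃ k, L k := by
    intro y
    by_cases hy : y ∈ ⋃ k, L k
    · obtain ⟨k, hk⟩ := mem_iUnion.1 hy
      exact ⟨k, Or.inl hk⟩
    · exact ⟨0, Or.inr hy⟩
  have hn : Measurable fun y => Nat.find (ex y) := measurable_find ex fun k =>
    (hL k).1.measurableSet.union (MeasurableSet.iUnion fun k => (hL k).1.measurableSet).compl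
  have sp : ∀ y ∈ E, y ∈ L (Nat.find (ex y)) :=
    fun y hy => (Nat.find_spec (ex y)).resolve_right (not_not.2 (EL hy))
  refine ⟨fun y => f (Nat.find (ex y)) y, (countable_iUnion f1).mono ?_, fun g => ?_,
    fun y hy z hz h => ?_, fun y hy => CU (OC _ (f4 _ (sp y hy)))⟩
  · rintro _ ⟨y, rfl⟩
    exact mem_iUnion.2 ⟨_, y, rfl⟩
  · have : (fun y => f (Nat.find (ex y)) y) ⁻¹' {g} =
        ⋃ k, (fun y => Nat.find (ex y)) ⁻¹' {k} ∩ f k ⁻¹' {g} := by
      ext y; simp only [mem_preimage, mem_singleton_iff, mem_iUnion, mem_inter_iff]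
      exact ⟨fun h => ⟨_, rfl, h⟩, fun ⟨k, h1, h2⟩ => h1 ▸ h2⟩
    rw [this]
    exact MeasurableSet.iUnion fun k => (hn (measurableSet_singleton k)).inter (f2 k g)
  · have a1 := f4 _ (sp y hy)
    have a2 := f4 _ (sp z hz)
    beta_reduce at h a1 a2
    have a3 := dO _ _ _ a1 (h ▸ a2)
    have a4 := sp z hz
    rw [← a3] at h a4
    exact f3 _ (sp y hy) a4 h

end Pool.Agent.H.MP_5eb27c_an
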